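import Mathlib

set_option autoImplicit false

namespace Pool.Agent.H.MP_0638d8_an

open Set Filter Topology MeasureTheory ProbabilityTheory Function Measure
open scoped ENNReal

theorem pl {X : Type} [m : MeasurableSpace X] {s : Set (Set X)} (h1 : m = .generateFrom s) (h2 : IsPiSystem s)
    (μ : ℕ → Measure X) (ν κ : Measure X) [IsFiniteMeasure ν] [IsFiniteMeasure κ]
    (hl : ∀ n t, MeasurableSet t → μ n t ≤ κ t) (hb : ∀ t ∈ s, Tendsto (μ · t) atTop (𝓝 (ν t)))
    (hu : Tendsto (μ · univ) atTop (𝓝 (ν univ))) : ∀ t, MeasurableSet t → Tendsto (μ · t) atTop (𝓝 (ν t)) := by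
  refine MeasurableSpace.induction_on_inter h1 h2 (by simp) hb (fun t m h => ?_) fun f d m h => ?_
  · simp only [fun n => measure_compl m (ne_top_of_le_ne_top (measure_ne_top _ _) (hl n t m)),
      measure_compl m (measure_ne_top ν _)]
    exact ENNReal.Tendsto.sub hu h (by simp)
  simp only [measure_iUnion d m, ← lintegral_count]
  exact tendsto_lintegral_of_dominated_convergence (fun i => κ (f i)) (fun _ => .of_discrete)
    (fun n => ae_of_all _ fun i => hl n _ (m i)) (by rw [lintegral_count, ← measure_iUnion d m]; simp) (ae_of_all _ h)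

variable {Y : Type} [MeasurableSpace Y] (ν : Measure Y) [IsProbabilityMeasure ν]

/-- shift -/
def sh (x : ℤ → Y) : ℤ → Y := fun i => x (i + 1)

omit [MeasurableSpace Y] in
theorem it (n : ℕ) (x : ℤ → Y) (i : ℤ) : sh^[n] x i = x (i + n) := by
  induction n generalizing i with
  | zero => simp
  | succ n k => rw [iterate_succ_apply', sh, k]; push_cast; ring_nf

theorem mp : MeasurePreserving sh (infinitePi fun _ : ℤ => ν) (infinitePi fun _ => ν) :=
  ⟨by unfold sh; fun_prop, map_infinitePi_infinitePi_of_inj (add_left_injective 1)⟩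

theorem mix {A B : Set (ℤ → Y)} (a : MeasurableSet A) (b : MeasurableSet B) :
    Tendsto (fun n => infinitePi (fun _ => ν) (sh^[n] ⁻¹' A ∩ B)) atTop
      (𝓝 (infinitePi (fun _ => ν) A * infinitePi (fun _ => ν) B)) := by
  set P := infinitePi fun _ : ℤ => ν
  have i := fun B => P.smul_finite (measure_ne_top P B)
  have q : ∀ n, P (sh^[n] ⁻¹' A) = P A := fun n => ((mp ν).iterate n).measure_preimage a.nullMeasurableSet
  have k : ∀ B ∈ measurableCylinders fun _ : ℤ => Y,
      Tendsto (fun n => P (sh^[n] ⁻¹' A ∩ B)) atTop (𝓝 (P A * P B)) := fun B b => by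
    have e : ∀ n t, MeasurableSet t → (P.restrict B).map sh^[n] t = P (sh^[n] ⁻¹' t ∩ B) := fun n t m => by
      rw [map_apply ((mp ν).measurable.iterate n) m, restrict_apply ((mp ν).measurable.iterate n m)]
    have := pl generateFrom_measurableCylinders.symm isPiSystem_measurableCylinders
      (fun n => (P.restrict B).map sh^[n]) (P B • P) P (fun n t m => (e n t m).trans_le
        ((measure_mono inter_subset_left).trans_eq (((mp ν).iterate n).measure_preimage m.nullMeasurableSet)))
          (fun A a => tendsto_const_nhds.congr' ?_) (by simp [e]) A a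
    · simpa only [e _ _ a, Measure.smul_apply, smul_eq_mul, mul_comm] using this
    obtain ⟨s, S, hS, rfl⟩ := (mem_measurableCylinders _).1 a
    obtain ⟨t, T, hT, rfl⟩ := (mem_measurableCylinders _).1 b
    obtain ⟨c, hc⟩ := ((s ×ˢ t).image fun z => z.2 - z.1).bddAbove
    filter_upwards [(tendsto_natCast_atTop_atTop (R := ℤ)).eventually_gt_atTop c] with n hn
    rw [e _ _ (hS.cylinder _), Measure.smul_apply, smul_eq_mul, mul_comm,
      ← ((mp ν).iterate n).measure_preimage (hS.cylinder _).nullMeasurableSet]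
    have := (((iIndepFun_infinitePi (P := fun _ : ℤ => ν) (X := fun _ y => y) fun _ => measurable_id).indepFun_finset
      (s.image (· + (n : ℤ))) t (Finset.disjoint_left.2 fun i h1 h2 => ?_) (by fun_prop)).comp
        (φ := fun y (i : s) => y ⟨(i : ℤ) + n, Finset.mem_image_of_mem _ i.2⟩) (by fun_prop)
          measurable_id).measure_inter_preimage_eq_mul S T hS hT
    · convert this.symm <;> ext x <;> simp only [cylinder, mem_preimage, comp, id] <;> congr! 2 <;> simp [it]
    obtain ⟨j, hj, rfl⟩ := Finset.mem_image.1 h1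
    have := hc (Finset.mem_image_of_mem _ (Finset.mk_mem_product hj h2))
    simp only at this
    omega
  have e : ∀ n t, MeasurableSet t → P.restrict (sh^[n] ⁻¹' A) t = P (sh^[n] ⁻¹' A ∩ t) := fun n t m => by
    rw [restrict_apply m, inter_comm]
  simpa only [e _ _ b, Measure.smul_apply, smul_eq_mul] using pl generateFrom_measurableCylinders.symm
    isPiSystem_measurableCylinders (fun n => P.restrict (sh^[n] ⁻¹' A)) (P A • P) P
      (fun n t m => restrict_le_self t) (fun B b => by simpa [e _ _ (.of_mem_measurableCylinders b)] using k B b)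
        (by simp [q]) B b

theorem op {U : Set (ℤ → Bool)} (h : IsOpen U) (n : U.Nonempty) : 0 < infinitePi (fun _ => uniformOn univ) U := by
  obtain ⟨x, hx⟩ := n
  obtain ⟨s, u, h1, h2⟩ := isOpen_pi_iff.1 h x hx
  refine lt_of_lt_of_le ?_ (measure_mono h2)
  rw [infinitePi_pi _ fun _ _ => .of_discrete, pos_iff_ne_zero, Finset.prod_ne_zero_iff]
  exact fun i hi e => (nonempty_of_mem (h1 i hi).2).ne_empty ((univ_inter _).symm.trans ((uniformOn_eq_zero_iff finite_univ).1 e))

/-- first zero at place `j`, followed by `b` -/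
def K (b : Bool) (j : ℕ) : Set (ℤ → Bool) := {x | x (-j) = false ∧ x (-j - 1) = b ∧ ∀ i < j, x (-i) = true}

theorem oK (b : Bool) (j : ℕ) : IsOpen (K b j) := by
  have : ∀ i b, IsOpen {x : ℤ → Bool | x i = b} := fun i b => 
    (isOpen_discrete {b}).preimage (continuous_apply (A := fun _ => Bool) i)
  refine (this _ _).inter ((this _ _).inter ?_)
  exact (Set.ext fun x => mem_iInter₂) ▸ (finite_lt_nat j).isOpen_biInter fun i _ => this (-i) true

theorem uK {b c : Bool} {i j : ℕ} {x : ℤ → Bool} (h : x ∈ K b i) (k : x ∈ K c j) : i = j ∧ b = c := by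
  obtain rfl : i = j := le_antisymm (not_lt.1 fun l => by simpa [k.1] using h.2.2 _ l)
    (not_lt.1 fun l => by simpa [h.1] using k.2.2 _ l)
  exact ⟨rfl, h.2.1.symm.trans k.2.1⟩

theorem layer : ∃ f : (ℤ → Bool) → ℕ, Measurable f ∧ Surjective f ∧ (∀ x (n : ℕ), x (-n) = false → f x ≤ n + 1) ∧
    ∀ x, x ∈ closure (interior {y | f y = f x}) := by
  classical
  obtain ⟨f, hf⟩ : ∃ f : (ℤ → Bool) → ℕ, ∀ x j, f x = j + 1 ↔ x ∈ K false j :=
    ⟨fun x => if h : ∃ j, x ∈ K false j then h.choose + 1 else 0, fun x j => by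
      beta_reduce
      split_ifs with h
      · exact ⟨fun e => Nat.succ_injective e ▸ h.choose_spec, fun e => by rw [(uK h.choose_spec e).1]⟩
      exact ⟨fun e => by simp at e, fun e => absurd ⟨j, e⟩ h⟩⟩
  have z : ∀ x, f x = 0 ↔ ∀ j, x ∉ K false j := fun x => ⟨fun h j c => by have := (hf x j).2 c; omega,
    fun h => by_contra fun c => h (f x - 1) ((hf x _).1 (by omega))⟩
  have o : ∀ j, K true j ⊆ interior {y | f y = 0} := fun j =>
    interior_maximal (fun y hy => (z y).2 fun i c => Bool.noConfusion (uK hy c).2) (oK _ _)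
  refine ⟨f, measurable_to_countable' fun j => ?_, fun j => ?_, fun x n h => ?_, fun x => ?_⟩
  · cases j with
    | zero =>
      convert (isOpen_iUnion (oK false)).measurableSet.compl
      ext
      simp [z]
    | succ j =>
      convert (oK false j).measurableSet
      ext
      simp [hf]
  · cases j with
    | zero => exact ⟨fun _ => true, (z _).2 fun j h => by simpa using h.1⟩
    | succ j => exact ⟨fun i => decide (-j < i), (hf _ _).2 ⟨by simp, by simp, by simp⟩⟩
  · refine not_lt.1 fun c => ?_
    simpa [h] using ((hf x (f x - 1)).1 (by omega)).2.2 n (by omega)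
  cases e : f x with
  | succ j => exact subset_closure (interior_maximal (fun y hy => (hf y j).2 hy) (oK _ _) ((hf x j).1 e))
  | zero =>
    by_cases c : ∃ j : ℕ, x (-j) = false
    · refine subset_closure (o (Nat.find c) ⟨Nat.find_spec c, ?_, fun i hi => by simpa using Nat.find_min c hi⟩)
      by_contra d
      exact (z x).1 e (Nat.find c) ⟨Nat.find_spec c, by simpa using d, fun i hi => by simpa using Nat.find_min c hi⟩
    simp only [not_exists, Bool.not_eq_false] at c
    refine mem_closure_of_tendsto (f := fun j : ℕ => update x (-j) false) (b := atTop)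
      (tendsto_pi_nhds.2 fun i => tendsto_const_nhds.congr' ?_) (.of_forall fun j => o j ⟨by simp, ?_, fun i hi => ?_⟩)
    · filter_upwards [eventually_gt_atTop i.natAbs] with j hj using (update_of_ne (by omega) _ _).symm
    · rw [update_of_ne (by omega)]
      simpa [sub_eq_add_neg, add_comm] using c (j + 1)
    rw [update_of_ne (by omega), c]

theorem metric : ∃ D : (ℤ → Bool) → (ℤ → Bool) → ℝ, (∀ x, D x x = 0) ∧ (∀ x y, D x y = D y x) ∧
    (∀ x y z, D x z ≤ D x y + D y z) ∧ (∀ x y, D x y = 0 → x = y) ∧ (∀ x y, D x y ≤ 1) ∧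
      ∀ x, Continuous (D · x) := by
  letI := TopologicalSpace.metrizableSpaceMetric (ℤ → Bool)
  obtain ⟨C, hC⟩ := Metric.isBounded_iff.1 (isCompact_univ (X := ℤ → Bool)).isBounded
  have c : 0 < |C| + 1 := by positivity
  exact ⟨fun x y => dist x y / (|C| + 1), by simp, fun x y => by simp only [dist_comm], fun x y z => by
    rw [← add_div]; exact div_le_div_of_nonneg_right (dist_triangle _ _ _) c.le, by simp [c.ne'],
    fun x y => (div_le_one c).2 (by linarith [hC (mem_univ x) (mem_univ y), le_abs_self C]), fun x => by fun_prop⟩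

theorem pig {N n : ℕ} (h : 2 ^ (n + 1) ≤ N) (g : Fin N → ℕ) (hg : ∀ i, g i ≤ n) :
    ∃ j, (N : ℝ) * (N - 1) ≤ 4 * 4 ^ (j + 1) * ((Finset.univ.filter (g · = j)).card.choose 2 : ℕ) := by
  have N0 : (0 : ℝ) < N := by exact_mod_cast lt_of_lt_of_le (by positivity) h
  obtain ⟨j, j1, j2⟩ : ∃ j ∈ Finset.range (n + 1), N / 2 / (2 : ℝ) ^ j < (Finset.univ.filter (g · = j)).card := by
    refine Finset.exists_lt_of_sum_lt ?_
    rw [← Nat.cast_sum, ← Finset.card_eq_sum_card_fiberwise fun i _ => by simpa using Nat.lt_succ_of_le (hg i),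
      Finset.card_fin]
    refine lt_of_lt_of_le ?_ (((summable_geometric_two' N).sum_le_tsum (Finset.range (n + 2))
      fun _ _ => by positivity).trans_eq (tsum_geometric_two' N))
    rw [Finset.sum_range_succ _ (n + 1), lt_add_iff_pos_right]
    positivity
  refine ⟨j, ?_⟩
  rw [Nat.cast_choose_two]
  generalize ((Finset.univ.filter (g · = j)).card) = m at j2
  rw [div_div, ← pow_succ', div_lt_iff₀ (by positivity)] at j2
  have : 2 ≤ m := by
    have : N < m * 2 ^ (j + 1) := by exact_mod_cast j2
    have := Nat.pow_le_pow_right two_pos (show j + 1 ≤ n + 1 by simp at j1; omega)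
    by_contra c
    interval_cases m <;> omega
  have : (2 : ℝ) ≤ m := by exact_mod_cast this
  rw [show (4 : ℝ) ^ (j + 1) = 2 ^ (j + 1) * 2 ^ (j + 1) by rw [← mul_pow]; norm_num]
  generalize (2 : ℝ) ^ (j + 1) = t at j2
  nlinarith [mul_self_le_mul_self N0.le j2.le, mul_nonneg (mul_self_nonneg t) (show 0 ≤ m * (m - 2 : ℝ) by nlinarith)]

end Pool.Agent.H.MP_0638d8_an
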